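import Mathlib

/-!
Retraction of the hyperspace of a fan over a compact subset of the line without intervals onto the
hyperspace of its subcontinua.  Part 1: definitions and continuity.
-/

namespace Pool.Agent.R380.Fan

open Set Topology TopologicalSpace Filter

/-! ### Suprema and infima over compact sets -/

theorem sup_spec {X : Type*} [TopologicalSpace X] {f : X → ℝ} {W : Set X} (hf : ContinuousOn f W)
    {A : NonemptyCompacts X} (hA : (A : Set X) ⊆ W) :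
    ∃ x ∈ (A : Set X), f x = sSup (f '' A) ∧ ∀ y ∈ (A : Set X), f y ≤ sSup (f '' A) := by
  obtain ⟨x, hx, h1, h2⟩ := A.isCompact.exists_sSup_image_eq_and_ge A.nonempty (hf.mono hA)
  exact ⟨x, hx, h1.symm, fun y hy => by rw [h1]; exact h2 y hy⟩

theorem inf_spec {X : Type*} [TopologicalSpace X] {f : X → ℝ} {W : Set X} (hf : ContinuousOn f W)
    {A : NonemptyCompacts X} (hA : (A : Set X) ⊆ W) :
    ∃ x ∈ (A : Set X), f x = sInf (f '' A) ∧ ∀ y ∈ (A : Set X), sInf (f '' A) ≤ f y := by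
  obtain ⟨x, hx, h1, h2⟩ := A.isCompact.exists_sInf_image_eq_and_le A.nonempty (hf.mono hA)
  exact ⟨x, hx, h1.symm, fun y hy => by rw [h1]; exact h2 y hy⟩

theorem cont_sup {X : Type*} [TopologicalSpace X] {f : X → ℝ} {W : Set X} (hW : IsOpen W)
    (hf : ContinuousOn f W) {A : NonemptyCompacts X} (hA : (A : Set X) ⊆ W) :
    ContinuousAt (fun B : NonemptyCompacts X => sSup (f '' B)) A := by
  have hsub : ∀ᶠ B : NonemptyCompacts X in 𝓝 A, (B : Set X) ⊆ W :=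
    (NonemptyCompacts.isOpen_subsets_of_isOpen hW).mem_nhds hA
  refine tendsto_order.2 ⟨fun c hc => ?_, fun c hc => ?_⟩
  · obtain ⟨x, hx, h1, -⟩ := sup_spec hf hA
    have ho : IsOpen (W ∩ f ⁻¹' Ioi c) := hf.isOpen_inter_preimage hW isOpen_Ioi
    have h2 : ∀ᶠ B : NonemptyCompacts X in 𝓝 A, ((B : Set X) ∩ (W ∩ f ⁻¹' Ioi c)).Nonempty :=
      (NonemptyCompacts.isOpen_inter_nonempty_of_isOpen ho).mem_nhds
        ⟨x, hx, hA hx, by simpa [h1] using hc⟩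
    filter_upwards [hsub, h2] with B hB ⟨y, hy, _, hy2⟩
    obtain ⟨_, _, _, h3⟩ := sup_spec hf hB
    exact lt_of_lt_of_le hy2 (h3 y hy)
  · obtain ⟨x, hx, h1, h1'⟩ := sup_spec hf hA
    have ho : IsOpen (W ∩ f ⁻¹' Iio c) := hf.isOpen_inter_preimage hW isOpen_Iio
    have h2 : ∀ᶠ B : NonemptyCompacts X in 𝓝 A, (B : Set X) ⊆ (W ∩ f ⁻¹' Iio c) :=
      (NonemptyCompacts.isOpen_subsets_of_isOpen ho).mem_nhds
        (fun y hy => ⟨hA hy, lt_of_le_of_lt (h1' y hy) hc⟩)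
    filter_upwards [hsub, h2] with B hB hB2
    obtain ⟨y, hy, h3, _⟩ := sup_spec hf hB
    rw [← h3]
    exact (hB2 hy).2

theorem cont_inf {X : Type*} [TopologicalSpace X] {f : X → ℝ} {W : Set X} (hW : IsOpen W)
    (hf : ContinuousOn f W) {A : NonemptyCompacts X} (hA : (A : Set X) ⊆ W) :
    ContinuousAt (fun B : NonemptyCompacts X => sInf (f '' B)) A := by
  have hsub : ∀ᶠ B : NonemptyCompacts X in 𝓝 A, (B : Set X) ⊆ W :=
    (NonemptyCompacts.isOpen_subsets_of_isOpen hW).mem_nhds hA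
  refine tendsto_order.2 ⟨fun c hc => ?_, fun c hc => ?_⟩
  · obtain ⟨x, hx, h1, h1'⟩ := inf_spec hf hA
    have ho : IsOpen (W ∩ f ⁻¹' Ioi c) := hf.isOpen_inter_preimage hW isOpen_Ioi
    have h2 : ∀ᶠ B : NonemptyCompacts X in 𝓝 A, (B : Set X) ⊆ (W ∩ f ⁻¹' Ioi c) :=
      (NonemptyCompacts.isOpen_subsets_of_isOpen ho).mem_nhds
        (fun y hy => ⟨hA hy, lt_of_lt_of_le hc (h1' y hy)⟩)
    filter_upwards [hsub, h2] with B hB hB2
    obtain ⟨y, hy, h3, _⟩ := inf_spec hf hB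
    rw [← h3]
    exact (hB2 hy).2
  · obtain ⟨x, hx, h1, -⟩ := inf_spec hf hA
    have ho : IsOpen (W ∩ f ⁻¹' Iio c) := hf.isOpen_inter_preimage hW isOpen_Iio
    have h2 : ∀ᶠ B : NonemptyCompacts X in 𝓝 A, ((B : Set X) ∩ (W ∩ f ⁻¹' Iio c)).Nonempty :=
      (NonemptyCompacts.isOpen_inter_nonempty_of_isOpen ho).mem_nhds
        ⟨x, hx, hA hx, by simpa [h1] using hc⟩
    filter_upwards [hsub, h2] with B hB ⟨y, hy, _, hy2⟩
    obtain ⟨_, _, _, h3⟩ := inf_spec hf hB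
    exact lt_of_le_of_lt (h3 y hy) hy2

/-! ### The fan -/

/-- the fan with apex `(0, 1)` over the compact set `Zs` of the line -/
def M0 (Zs : Set ℝ) : Set (ℝ × ℝ) := {x | ∃ z ∈ Zs, 0 ≤ x.2 ∧ x.2 ≤ 1 ∧ x.1 = (1 - x.2) * z}

/-- the point of height `s` on the leg `z` -/
def pt (z s : ℝ) : ℝ × ℝ := ((1 - s) * z, s)

/-- the homothety with centre the apex -/
def hh (x : ℝ × ℝ) (μ : ℝ) : ℝ × ℝ := ((1 - μ) * x.1, x.2 + μ * (1 - x.2))

theorem hh_pt (z s μ : ℝ) : hh (pt z s) μ = pt z (s + μ * (1 - s)) := by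
  simp only [hh, pt, Prod.mk.injEq, and_true]
  ring

theorem pt_one (z : ℝ) : pt z 1 = (0, 1) := by simp [pt]

theorem hh_one (x : ℝ × ℝ) : hh x 1 = (0, 1) := by simp [hh]

theorem hh_zero (x : ℝ × ℝ) : hh x 0 = x := by simp [hh]

theorem mem_M0 {Zs : Set ℝ} {x : ℝ × ℝ} :
    x ∈ M0 Zs ↔ ∃ z ∈ Zs, ∃ s, 0 ≤ s ∧ s ≤ 1 ∧ x = pt z s := by
  constructor
  · rintro ⟨z, hz, h0, h1, h2⟩
    exact ⟨z, hz, x.2, h0, h1, Prod.ext h2 rfl⟩
  · rintro ⟨z, hz, s, h0, h1, rfl⟩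
    exact ⟨z, hz, h0, h1, rfl⟩

/-- the unit interval as a compact set -/
def I01 : NonemptyCompacts ℝ := ⟨⟨Icc 0 1, isCompact_Icc⟩, ⟨0, by simp⟩⟩

/-- the segment of heights from `s` to `t` on the leg `z` -/
def seg (z s t : ℝ) : NonemptyCompacts (ℝ × ℝ) :=
  I01.map (fun l => pt z (s + l * (t - s))) (by unfold pt; fun_prop)

/-- the union of the segments from the points of `A` to the apex, moved towards the apex -/
def HH (θ : ℝ) (A : NonemptyCompacts (ℝ × ℝ)) : NonemptyCompacts (ℝ × ℝ) :=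
  (A ×ˢ I01).map (fun q => hh q.1 (θ + q.2 * (1 - θ))) (by unfold hh; fun_prop)

theorem mem_seg {z s t : ℝ} (hst : s ≤ t) {x : ℝ × ℝ} :
    x ∈ (seg z s t : Set (ℝ × ℝ)) ↔ ∃ v, s ≤ v ∧ v ≤ t ∧ x = pt z v := by
  simp only [seg, NonemptyCompacts.coe_map, mem_image]
  constructor
  · rintro ⟨l, ⟨h0, h1⟩, rfl⟩
    exact ⟨s + l * (t - s), by nlinarith, by nlinarith, rfl⟩
  · rintro ⟨v, h1, h2, rfl⟩
    rcases eq_or_lt_of_le hst with h | h
    · subst h
      refine ⟨0, ⟨le_refl _, zero_le_one⟩, ?_⟩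
      have : v = s := le_antisymm h2 h1
      rw [this]; simp
    · refine ⟨(v - s) / (t - s), ⟨by apply div_nonneg <;> linarith, ?_⟩, ?_⟩
      · rw [div_le_one (by linarith)]; linarith
      · rw [div_mul_cancel₀ _ (by linarith)]; simp

theorem mem_HH {θ : ℝ} (h0 : 0 ≤ θ) (h1 : θ ≤ 1) {A : NonemptyCompacts (ℝ × ℝ)} {x : ℝ × ℝ} :
    x ∈ (HH θ A : Set (ℝ × ℝ)) ↔ ∃ y ∈ (A : Set (ℝ × ℝ)), ∃ μ, θ ≤ μ ∧ μ ≤ 1 ∧ x = hh y μ := by
  simp only [HH, NonemptyCompacts.coe_map, mem_image, NonemptyCompacts.coe_prod]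
  constructor
  · rintro ⟨⟨y, l⟩, ⟨hy, h2, h3⟩, rfl⟩
    simp only at hy h2 h3
    exact ⟨y, hy, θ + l * (1 - θ), by nlinarith, by nlinarith, rfl⟩
  · rintro ⟨y, hy, μ, h2, h3, rfl⟩
    rcases eq_or_lt_of_le h1 with h | h
    · subst h
      refine ⟨(y, 0), ⟨hy, le_refl _, zero_le_one⟩, ?_⟩
      have : μ = 1 := le_antisymm h3 h2
      simp [this]
    · refine ⟨(y, (μ - θ) / (1 - θ)), ⟨hy, ?_, ?_⟩, ?_⟩
      · show (0 : ℝ) ≤ _
        apply div_nonneg <;> linarith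
      · show _ ≤ (1 : ℝ)
        rw [div_le_one (by linarith)]; linarith
      · simp only
        rw [div_mul_cancel₀ _ (by linarith)]; simp

theorem cont_seg : Continuous (fun q : ℝ × ℝ × ℝ => seg q.1 q.2.1 q.2.2) := by
  unfold seg
  apply Continuous.nonemptyCompacts_map' (f := fun _ : ℝ × ℝ × ℝ => I01)
    (g := fun (q : ℝ × ℝ × ℝ) l => pt q.1 (q.2.1 + l * (q.2.2 - q.2.1)))
  · fun_prop
  · unfold pt Function.uncurry; fun_prop

theorem cont_HH : Continuous (fun q : ℝ × NonemptyCompacts (ℝ × ℝ) => HH q.1 q.2) := by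
  unfold HH
  apply Continuous.nonemptyCompacts_map' (f := fun q : ℝ × NonemptyCompacts (ℝ × ℝ) => q.2 ×ˢ I01)
    (g := fun (q : ℝ × NonemptyCompacts (ℝ × ℝ)) (r : (ℝ × ℝ) × ℝ) => hh r.1 (q.1 + r.2 * (1 - q.1)))
  · exact NonemptyCompacts.continuous_prod.comp (continuous_snd.prodMk continuous_const)
  · unfold hh Function.uncurry; fun_prop

/-- the region below the apex -/
def W : Set (ℝ × ℝ) := {x | x.2 < 1}

theorem isOpen_W : IsOpen W := isOpen_lt continuous_snd continuous_const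

/-- the leg coordinate -/
noncomputable def zeta (x : ℝ × ℝ) : ℝ := x.1 / (1 - x.2)

theorem cont_zeta : ContinuousOn zeta W := by
  unfold zeta
  apply ContinuousOn.div
  · fun_prop
  · fun_prop
  · intro x hx
    have : x.2 < 1 := hx
    linarith

theorem zeta_pt {z s : ℝ} (hs : s < 1) : zeta (pt z s) = z := by
  simp only [zeta, pt]
  field_simp [show (1 - s) ≠ 0 by linarith]

noncomputable def aa (A : NonemptyCompacts (ℝ × ℝ)) : ℝ := sInf (Prod.snd '' (A : Set (ℝ × ℝ)))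
noncomputable def bb (A : NonemptyCompacts (ℝ × ℝ)) : ℝ := sSup (Prod.snd '' (A : Set (ℝ × ℝ)))
noncomputable def zlo (A : NonemptyCompacts (ℝ × ℝ)) : ℝ := sInf (zeta '' (A : Set (ℝ × ℝ)))
noncomputable def zhi (A : NonemptyCompacts (ℝ × ℝ)) : ℝ := sSup (zeta '' (A : Set (ℝ × ℝ)))

theorem cont_aa : Continuous aa := continuous_iff_continuousAt.2 fun _ =>
  cont_inf isOpen_univ continuous_snd.continuousOn (subset_univ _)

theorem cont_bb : Continuous bb := continuous_iff_continuousAt.2 fun _ =>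
  cont_sup isOpen_univ continuous_snd.continuousOn (subset_univ _)

theorem aa_spec (A : NonemptyCompacts (ℝ × ℝ)) :
    ∃ x ∈ (A : Set (ℝ × ℝ)), x.2 = aa A ∧ ∀ y ∈ (A : Set (ℝ × ℝ)), aa A ≤ y.2 :=
  inf_spec (f := Prod.snd) (continuous_snd.continuousOn (s := univ)) (subset_univ _)

theorem bb_spec (A : NonemptyCompacts (ℝ × ℝ)) :
    ∃ x ∈ (A : Set (ℝ × ℝ)), x.2 = bb A ∧ ∀ y ∈ (A : Set (ℝ × ℝ)), y.2 ≤ bb A :=
  sup_spec (f := Prod.snd) (continuous_snd.continuousOn (s := univ)) (subset_univ _)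

theorem bb_lt_iff (A : NonemptyCompacts (ℝ × ℝ)) : bb A < 1 ↔ (A : Set (ℝ × ℝ)) ⊆ W := by
  obtain ⟨x, hx, h1, h2⟩ := bb_spec A
  constructor
  · intro h y hy
    exact lt_of_le_of_lt (h2 y hy) h
  · intro h
    rw [← h1]
    exact h hx

theorem zlo_spec {A : NonemptyCompacts (ℝ × ℝ)} (h : (A : Set (ℝ × ℝ)) ⊆ W) :
    ∃ x ∈ (A : Set (ℝ × ℝ)), zeta x = zlo A ∧ ∀ y ∈ (A : Set (ℝ × ℝ)), zlo A ≤ zeta y :=
  inf_spec cont_zeta h

theorem zhi_spec {A : NonemptyCompacts (ℝ × ℝ)} (h : (A : Set (ℝ × ℝ)) ⊆ W) :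
    ∃ x ∈ (A : Set (ℝ × ℝ)), zeta x = zhi A ∧ ∀ y ∈ (A : Set (ℝ × ℝ)), zeta y ≤ zhi A :=
  sup_spec cont_zeta h

theorem zlo_le_zhi {A : NonemptyCompacts (ℝ × ℝ)} (h : (A : Set (ℝ × ℝ)) ⊆ W) : zlo A ≤ zhi A := by
  obtain ⟨x, hx, h1, -⟩ := zlo_spec h
  obtain ⟨_, _, _, h2⟩ := zhi_spec h
  rw [← h1]
  exact h2 x hx

/-- clamping to `[0, 1]` -/
noncomputable def cl (x : ℝ) : ℝ := max 0 (min 1 x)

theorem cl_nonneg (x : ℝ) : 0 ≤ cl x := le_max_left _ _
theorem cl_le_one (x : ℝ) : cl x ≤ 1 := max_le zero_le_one (min_le_left _ _)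
theorem cl_of_le {x : ℝ} (h : x ≤ 0) : cl x = 0 := by
  unfold cl; rw [min_eq_right (by linarith)]; exact max_eq_left h
theorem cl_of_ge {x : ℝ} (h : 1 ≤ x) : cl x = 1 := by
  unfold cl; rw [min_eq_left h]; exact max_eq_right zero_le_one
theorem cont_cl : Continuous cl := by unfold cl; fun_prop

noncomputable def qq (A : NonemptyCompacts (ℝ × ℝ)) : ℝ := (zhi A - zlo A) / (1 - bb A)

noncomputable def R1 (A : NonemptyCompacts (ℝ × ℝ)) : NonemptyCompacts (ℝ × ℝ) :=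
  seg (zlo A) (aa A) (bb A + (zhi A - zlo A))

noncomputable def R2 (A : NonemptyCompacts (ℝ × ℝ)) : NonemptyCompacts (ℝ × ℝ) :=
  seg (zlo A) (aa A + cl (qq A - 2) * (1 - aa A)) 1 ⊔ HH (cl (2 - qq A)) A

open Classical in
/-- the retraction -/
noncomputable def RR (A : NonemptyCompacts (ℝ × ℝ)) : NonemptyCompacts (ℝ × ℝ) :=
  if bb A < 1 then (if zhi A - zlo A ≤ 1 - bb A then R1 A else R2 A) else HH 0 A

theorem cont_zlo {A : NonemptyCompacts (ℝ × ℝ)} (h : (A : Set (ℝ × ℝ)) ⊆ W) : ContinuousAt zlo A :=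
  cont_inf isOpen_W cont_zeta h

theorem cont_zhi {A : NonemptyCompacts (ℝ × ℝ)} (h : (A : Set (ℝ × ℝ)) ⊆ W) : ContinuousAt zhi A :=
  cont_sup isOpen_W cont_zeta h

theorem cont_qq {A : NonemptyCompacts (ℝ × ℝ)} (h : (A : Set (ℝ × ℝ)) ⊆ W) : ContinuousAt qq A := by
  have hb := (bb_lt_iff A).2 h
  unfold qq
  exact ((cont_zhi h).sub (cont_zlo h)).div (continuousAt_const.sub cont_bb.continuousAt)
    (by linarith)

theorem cont_R1 {A : NonemptyCompacts (ℝ × ℝ)} (h : (A : Set (ℝ × ℝ)) ⊆ W) : ContinuousAt R1 A := by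
  unfold R1
  exact (cont_seg.continuousAt (x := (zlo A, aa A, bb A + (zhi A - zlo A)))).comp
    (f := fun B => (zlo B, aa B, bb B + (zhi B - zlo B)))
    ((cont_zlo h).prodMk (cont_aa.continuousAt.prodMk
      (cont_bb.continuousAt.add ((cont_zhi h).sub (cont_zlo h)))))

theorem cont_R2 {A : NonemptyCompacts (ℝ × ℝ)} (h : (A : Set (ℝ × ℝ)) ⊆ W) : ContinuousAt R2 A := by
  unfold R2
  apply ContinuousAt.sup
  · exact (cont_seg.continuousAt (x := (zlo A, aa A + cl (qq A - 2) * (1 - aa A), 1))).comp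
      (f := fun B => (zlo B, aa B + cl (qq B - 2) * (1 - aa B), (1 : ℝ)))
      ((cont_zlo h).prodMk ((cont_aa.continuousAt.add
        ((cont_cl.continuousAt.comp ((cont_qq h).sub continuousAt_const)).mul
          (continuousAt_const.sub cont_aa.continuousAt))).prodMk continuousAt_const))
  · exact (cont_HH.continuousAt (x := (cl (2 - qq A), A))).comp
      (f := fun B => (cl (2 - qq B), B))
      ((cont_cl.continuousAt.comp (continuousAt_const.sub (cont_qq h))).prodMk continuousAt_id)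

theorem aa_le_bb (A : NonemptyCompacts (ℝ × ℝ)) : aa A ≤ bb A := by
  obtain ⟨x, hx, h1, -⟩ := aa_spec A
  obtain ⟨_, _, _, h2⟩ := bb_spec A
  rw [← h1]
  exact h2 x hx

theorem R1_eq_R2 {A : NonemptyCompacts (ℝ × ℝ)} (h : (A : Set (ℝ × ℝ)) ⊆ W)
    (he : zhi A - zlo A = 1 - bb A) : R1 A = R2 A := by
  have hb := (bb_lt_iff A).2 h
  have hq : qq A = 1 := by
    unfold qq; rw [he]; exact div_self (by linarith)
  have hab := aa_le_bb A
  apply NonemptyCompacts.ext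
  unfold R1 R2
  rw [hq, cl_of_le (show (1 : ℝ) - 2 ≤ 0 by norm_num), cl_of_ge (show (1 : ℝ) ≤ 2 - 1 by norm_num), he,
    NonemptyCompacts.coe_sup, zero_mul, add_zero, show bb A + (1 - bb A) = 1 by ring]
  symm
  apply union_eq_left.2
  intro x hx
  obtain ⟨y, hy, μ, h1, h2, rfl⟩ := (mem_HH zero_le_one le_rfl).1 hx
  have : μ = 1 := le_antisymm h2 h1
  rw [this, hh_one]
  exact (mem_seg (by linarith)).2 ⟨1, by linarith, le_rfl, (pt_one _).symm⟩

theorem cont_RR_of_lt {A : NonemptyCompacts (ℝ × ℝ)} (h : (A : Set (ℝ × ℝ)) ⊆ W) :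
    ContinuousAt RR A := by
  have hb := (bb_lt_iff A).2 h
  have hsub : ∀ᶠ B : NonemptyCompacts (ℝ × ℝ) in 𝓝 A, bb B < 1 :=
    cont_bb.continuousAt.eventually_lt continuousAt_const hb
  have hcD : ContinuousAt (fun B => zhi B - zlo B) A := (cont_zhi h).sub (cont_zlo h)
  have hcb : ContinuousAt (fun B => 1 - bb B) A := continuousAt_const.sub cont_bb.continuousAt
  rcases lt_trichotomy (zhi A - zlo A) (1 - bb A) with h1 | h1 | h1
  · have h2 : ∀ᶠ B in 𝓝 A, zhi B - zlo B < 1 - bb B := hcD.eventually_lt hcb h1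
    refine (cont_R1 h).congr ?_
    filter_upwards [hsub, h2] with B hB hB2
    simp only [RR, if_pos hB, if_pos hB2.le]
  · have hval : RR A = R1 A := by simp only [RR, if_pos hb, if_pos h1.le]
    have hval2 : RR A = R2 A := by rw [hval, R1_eq_R2 h h1]
    intro U hU
    have hU1 : U ∈ 𝓝 (R1 A) := by rw [← hval]; exact hU
    have hU2 : U ∈ 𝓝 (R2 A) := by rw [← hval2]; exact hU
    have e1 : ∀ᶠ B in 𝓝 A, R1 B ∈ U := (cont_R1 h) hU1
    have e2 : ∀ᶠ B in 𝓝 A, R2 B ∈ U := (cont_R2 h) hU2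
    show ∀ᶠ B in 𝓝 A, RR B ∈ U
    filter_upwards [hsub, e1, e2] with B hB hB1 hB2
    simp only [RR, if_pos hB]
    split_ifs
    · exact hB1
    · exact hB2
  · have h2 : ∀ᶠ B in 𝓝 A, 1 - bb B < zhi B - zlo B := hcb.eventually_lt hcD h1
    refine (cont_R2 h).congr ?_
    filter_upwards [hsub, h2] with B hB hB2
    simp only [RR, if_pos hB, if_neg (not_le.2 hB2)]

end Pool.Agent.R380.Fan
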