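import Pool.Agent.R380.Fan.Retr

/-!
Retraction of the hyperspace of a fan.  Part 3: transfer to abstract cones; the harmonic fan.
-/

namespace Pool.Agent.R380.Fan

open Set Topology TopologicalSpace Filter

variable {Zs : Set ℝ}

theorem retr_of_embedding {M : Type*} [TopologicalSpace M] {K : ℝ} (hK0 : 0 ≤ K)
    (hK : ∀ z ∈ Zs, |z| ≤ K)
    (hgap : ∀ z1 z2 : ℝ, z1 < z2 → ∃ c, z1 < c ∧ c < z2 ∧ c ∉ Zs)
    (e : M → ℝ × ℝ) (he : IsClosedEmbedding e) (hr : range e = M0 Zs) :
    ∃ r : NonemptyCompacts M → NonemptyCompacts M, Continuous r ∧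
      (∀ A : NonemptyCompacts M, IsConnected (r A : Set M)) ∧
      ∀ A : NonemptyCompacts M, IsConnected (A : Set M) → r A = A := by
  let me : NonemptyCompacts M → NonemptyCompacts (ℝ × ℝ) := NonemptyCompacts.map e he.continuous
  have hme : IsEmbedding me := he.isEmbedding.nonemptyCompacts_map
  have hsub : ∀ A, (me A : Set (ℝ × ℝ)) ⊆ M0 Zs := by
    intro A
    simp only [me, NonemptyCompacts.coe_map]
    rw [← hr]
    exact image_subset_range _ _
  have hex : ∀ A : NonemptyCompacts M, ∃ C : NonemptyCompacts M, me C = RR (me A) := by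
    intro A
    have h1 : (RR (me A) : Set (ℝ × ℝ)) ⊆ range e := by rw [hr]; exact RR_sub (hsub A)
    refine ⟨⟨⟨e ⁻¹' (RR (me A) : Set (ℝ × ℝ)), he.isCompact_preimage (RR (me A)).isCompact⟩, ?_⟩, ?_⟩
    · obtain ⟨x, hx⟩ := (RR (me A)).nonempty
      obtain ⟨y, rfl⟩ := h1 hx
      exact ⟨y, hx⟩
    · apply NonemptyCompacts.ext
      simp only [me, NonemptyCompacts.coe_map]
      exact image_preimage_eq_of_subset h1
  choose r hr' using hex
  refine ⟨r, ?_, ?_, ?_⟩
  · rw [hme.continuous_iff]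
    have h1 : me ∘ r = fun A => RR (me A) := funext hr'
    rw [h1]
    exact (cont_RR hK0 hK).comp_continuous hme.continuous hsub
  · intro A
    have h1 := RR_conn (me A) (hsub A)
    rw [← hr' A] at h1
    simp only [me, NonemptyCompacts.coe_map] at h1
    exact ⟨(r A).nonempty, he.isInducing.isPreconnected_image.1 h1.isPreconnected⟩
  · intro A hA
    apply hme.injective
    rw [hr' A]
    apply RR_id hgap (hsub A)
    simp only [me, NonemptyCompacts.coe_map]
    exact hA.image _ he.continuous.continuousOn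

theorem gap_of_countable (h : Zs.Countable) :
    ∀ z1 z2 : ℝ, z1 < z2 → ∃ c, z1 < c ∧ c < z2 ∧ c ∉ Zs := by
  intro z1 z2 h12
  have hd : Dense Zsᶜ := h.dense_compl ℝ
  obtain ⟨c, hc, h1, h2⟩ := hd.exists_between h12
  exact ⟨c, h1, h2, hc⟩

/-- a compact metric space with one accumulation point embeds in the line -/
theorem exists_emb (Z : Type*) [MetricSpace Z] [CompactSpace Z]
    (hZ : ∃! z : Z, AccPt z (𝓟 univ)) :
    ∃ f : Z → ℝ, Continuous f ∧ Function.Injective f ∧ Countable Z := by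
  obtain ⟨p, hp, hp'⟩ := hZ
  have hiso : ∀ z, z ≠ p → IsOpen ({z} : Set Z) := by
    intro z hz
    rw [isOpen_singleton_iff_punctured_nhds]
    by_contra hne
    have : (𝓝[≠] z).NeBot := ⟨hne⟩
    apply hz
    apply hp'
    simp only [AccPt, principal_univ, inf_top_eq]
    exact this
  have hcount : Countable Z := by
    obtain ⟨s, hs, hd⟩ := exists_countable_dense Z
    have : (univ : Set Z) ⊆ s ∪ {p} := by
      intro z _
      by_cases hz : z = p
      · exact Or.inr hz
      · left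
        obtain ⟨y, hy, hy2⟩ := hd.exists_mem_open (hiso z hz) ⟨z, rfl⟩
        rw [mem_singleton_iff.1 hy2] at hy
        exact hy
    exact countable_univ_iff.1 ((hs.union (countable_singleton p)).mono this)
  obtain ⟨n, hn⟩ := Countable.exists_injective_nat Z
  classical
  let f : Z → ℝ := fun z => if z = p then 0 else 1 / ((n z : ℝ) + 1)
  have hfp : f p = 0 := if_pos rfl
  have hfn : ∀ z, z ≠ p → f z = 1 / ((n z : ℝ) + 1) := fun z hz => if_neg hz
  refine ⟨f, ?_, ?_, hcount⟩
  · rw [continuous_iff_continuousAt]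
    intro z
    by_cases hz : z = p
    · subst hz
      rw [Metric.continuousAt_iff']
      intro ε hε
      -- the exceptional set is finite
      obtain ⟨N, hN⟩ := exists_nat_gt (1 / ε)
      have hfin : ({w : Z | n w < N} \ {z}).Finite := by
        apply Set.Finite.subset _ sdiff_subset
        exact Set.Finite.preimage hn.injOn (finite_lt_nat N)
      have ho : IsOpen ({w : Z | n w < N} \ {z})ᶜ := hfin.isClosed.isOpen_compl
      filter_upwards [ho.mem_nhds (by simp)] with w hw
      rw [hfp, Real.dist_eq, sub_zero]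
      by_cases hwz : w = z
      · rw [hwz, hfp, abs_zero]; exact hε
      · have hge : ¬ n w < N := fun h => hw ⟨h, hwz⟩
        rw [hfn w hwz, abs_of_pos (by positivity)]
        have h1 : (N : ℝ) ≤ n w := by exact_mod_cast not_lt.1 hge
        rw [div_lt_comm₀ (by positivity) hε]
        linarith
    · have : 𝓝 z = pure z := (isOpen_singleton_iff_nhds_eq_pure z).1 (hiso z hz)
      unfold ContinuousAt
      rw [this, tendsto_pure_left]
      intro s hs
      exact mem_of_mem_nhds hs
  · intro a b hab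
    by_cases ha : a = p
    · by_cases hb : b = p
      · rw [ha, hb]
      · rw [ha, hfp, hfn b hb] at hab
        have : (0 : ℝ) < 1 / ((n b : ℝ) + 1) := by positivity
        linarith
    · by_cases hb : b = p
      · rw [hb, hfp, hfn a ha] at hab
        have : (0 : ℝ) < 1 / ((n a : ℝ) + 1) := by positivity
        linarith
      · rw [hfn a ha, hfn b hb] at hab
        apply hn
        have h1 : ((n a : ℝ) + 1) = (n b : ℝ) + 1 := by
          have ha' : ((n a : ℝ) + 1) ≠ 0 := by positivity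
          have hb' : ((n b : ℝ) + 1) ≠ 0 := by positivity
          field_simp at hab
          linarith
        have h2 : (n a : ℝ) = n b := by linarith
        exact_mod_cast h2

theorem isCompact_M0 (h : IsCompact Zs) : IsCompact (M0 Zs) := by
  have h1 : M0 Zs = (fun q : ℝ × ℝ => pt q.1 q.2) '' (Zs ×ˢ Icc 0 1) := by
    ext x
    rw [mem_M0]
    constructor
    · rintro ⟨z, hz, s, h0, h1, rfl⟩
      exact ⟨(z, s), ⟨hz, h0, h1⟩, rfl⟩
    · rintro ⟨⟨z, s⟩, ⟨hz, h0, h1⟩, rfl⟩
      exact ⟨z, hz, s, h0, h1, rfl⟩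
  rw [h1]
  exact (h.prod isCompact_Icc).image (by unfold pt; fun_prop)

theorem isConnected_M0 (h : Zs.Nonempty) : IsConnected (M0 Zs) := by
  obtain ⟨z0, hz0⟩ := h
  have htop : ((0 : ℝ), (1 : ℝ)) ∈ M0 Zs := by
    rw [← pt_one z0]
    exact pt_mem hz0 zero_le_one le_rfl
  refine ⟨⟨_, htop⟩, isPreconnected_of_forall (0, 1) ?_⟩
  intro x hx
  obtain ⟨z, hz, s, h0, h1, rfl⟩ := mem_M0.1 hx
  refine ⟨(fun t => pt z t) '' Icc s 1, ?_, ⟨1, ⟨h1, le_rfl⟩, pt_one z⟩, ⟨s, ⟨le_rfl, h1⟩, rfl⟩,
    isPreconnected_Icc.image _ (by unfold pt; fun_prop)⟩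
  rintro _ ⟨t, ⟨h2, h3⟩, rfl⟩
  exact pt_mem hz (h0.trans h2) h3

/-- the base of the harmonic fan -/
def Zh : Set ℝ := range (fun n : ℕ => 1 / ((n : ℝ) + 1)) ∪ {0}

theorem Zh_compact : IsCompact Zh := by
  have h : Tendsto (fun n : ℕ => 1 / ((n : ℝ) + 1)) atTop (𝓝 0) := tendsto_one_div_add_atTop_nhds_zero_nat
  have := h.isCompact_insert_range
  unfold Zh
  rw [union_comm]
  exact this

theorem Zh_countable : Zh.Countable := (countable_range _).union (countable_singleton _)

theorem Zh_bound : ∀ z ∈ Zh, |z| ≤ 1 := by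
  rintro z (⟨n, rfl⟩ | rfl)
  · simp only
    rw [abs_of_pos (by positivity), div_le_one (by positivity)]
    have : (0 : ℝ) ≤ n := Nat.cast_nonneg n
    linarith
  · simp

theorem fan_not_locconn : ¬ LocallyConnectedSpace (M0 Zh) := by
  intro hlc
  have h0 : (0 : ℝ) ∈ Zh := Or.inr rfl
  let x0 : M0 Zh := ⟨pt 0 0, pt_mem h0 le_rfl zero_le_one⟩
  let U : Set (M0 Zh) := {x | x.1.2 < 1}
  have hU : IsOpen U := isOpen_lt (by fun_prop) continuous_const
  have hx0 : x0 ∈ U := by show (0 : ℝ) < 1; norm_num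
  have hC : IsOpen (connectedComponentIn U x0) := hU.connectedComponentIn
  have hx0C : x0 ∈ connectedComponentIn U x0 := mem_connectedComponentIn hx0
  let y : ℕ → M0 Zh := fun n => ⟨pt (1 / ((n : ℝ) + 1)) 0, pt_mem (Or.inl ⟨n, rfl⟩) le_rfl zero_le_one⟩
  have hy : Tendsto y atTop (𝓝 x0) := by
    rw [tendsto_subtype_rng]
    have h : Tendsto (fun n : ℕ => 1 / ((n : ℝ) + 1)) atTop (𝓝 0) :=
      tendsto_one_div_add_atTop_nhds_zero_nat
    have hc : Continuous (fun z : ℝ => pt z 0) := by unfold pt; fun_prop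
    exact (hc.tendsto 0).comp h
  obtain ⟨n, hn⟩ := (hy.eventually (hC.mem_nhds hx0C)).exists
  have hpc : IsPreconnected ((fun x : M0 Zh => zeta x.1) '' connectedComponentIn U x0) := by
    apply isPreconnected_connectedComponentIn.image
    apply cont_zeta.comp continuous_subtype_val.continuousOn
    intro x hx
    exact connectedComponentIn_subset U x0 hx
  have e0 : zeta x0.1 = 0 := zeta_pt (by norm_num)
  have e1 : zeta (y n).1 = 1 / ((n : ℝ) + 1) := zeta_pt (by norm_num)
  obtain ⟨c, h1, h2, h3⟩ := gap_of_countable Zh_countable 0 (1 / ((n : ℝ) + 1)) (by positivity)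
  have h4 : c ∈ (fun x : M0 Zh => zeta x.1) '' connectedComponentIn U x0 :=
    hpc.Icc_subset ⟨x0, hx0C, e0⟩ ⟨y n, hn, e1⟩ ⟨h1.le, h2.le⟩
  obtain ⟨w, hw, h5⟩ := h4
  obtain ⟨z, hz, s, _, _, h6⟩ := mem_M0.1 w.2
  have h7 : w.1.2 < 1 := connectedComponentIn_subset U x0 hw
  simp only at h5
  rw [h6] at h5 h7
  have h8 : s < 1 := h7
  rw [zeta_pt h8] at h5
  exact h3 (h5 ▸ hz)

end Pool.Agent.R380.Fan
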