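import Pool.Agent.R380.Fan.Basic

/-!
Retraction of the hyperspace of a fan.  Part 2: continuity at the sets through the apex,
connectedness of the values, identity on the subcontinua.
-/

namespace Pool.Agent.R380.Fan

open Set Topology TopologicalSpace Filter Metric

variable {Zs : Set ℝ}

theorem mem_form {A : NonemptyCompacts (ℝ × ℝ)} (hA : (A : Set (ℝ × ℝ)) ⊆ M0 Zs) {x : ℝ × ℝ}
    (hx : x ∈ (A : Set (ℝ × ℝ))) : ∃ z ∈ Zs, 0 ≤ x.2 ∧ x.2 ≤ 1 ∧ x = pt z x.2 := by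
  obtain ⟨z, hz, s, h0, h1, rfl⟩ := mem_M0.1 (hA hx)
  exact ⟨z, hz, h0, h1, rfl⟩

theorem bb_le_one {A : NonemptyCompacts (ℝ × ℝ)} (hA : (A : Set (ℝ × ℝ)) ⊆ M0 Zs) : bb A ≤ 1 := by
  obtain ⟨x, hx, h1, -⟩ := bb_spec A
  obtain ⟨z, _, _, h2, _⟩ := mem_form hA hx
  rw [← h1]; exact h2

theorem aa_nonneg {A : NonemptyCompacts (ℝ × ℝ)} (hA : (A : Set (ℝ × ℝ)) ⊆ M0 Zs) : 0 ≤ aa A := by
  obtain ⟨x, hx, h1, -⟩ := aa_spec A
  obtain ⟨z, _, h2, _, _⟩ := mem_form hA hx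
  rw [← h1]; exact h2

theorem mem_HH0 {A : NonemptyCompacts (ℝ × ℝ)} {z s s' : ℝ} (h : pt z s ∈ (A : Set (ℝ × ℝ)))
    (h1 : s ≤ s') (h2 : s' ≤ 1) : pt z s' ∈ (HH 0 A : Set (ℝ × ℝ)) := by
  refine (mem_HH le_rfl zero_le_one).2 ⟨pt z s, h, ?_⟩
  rcases eq_or_lt_of_le (h1.trans h2) with h3 | h3
  · refine ⟨0, le_rfl, zero_le_one, ?_⟩
    have : s' = s := by linarith
    rw [hh_zero, this]
  · refine ⟨(s' - s) / (1 - s), by apply div_nonneg <;> linarith, ?_, ?_⟩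
    · rw [div_le_one (by linarith)]; linarith
    · rw [hh_pt, div_mul_cancel₀ _ (by linarith)]; simp

theorem HH0_form {A : NonemptyCompacts (ℝ × ℝ)} (hA : (A : Set (ℝ × ℝ)) ⊆ M0 Zs) {x : ℝ × ℝ}
    (hx : x ∈ (HH 0 A : Set (ℝ × ℝ))) :
    ∃ z ∈ Zs, ∃ s s', pt z s ∈ (A : Set (ℝ × ℝ)) ∧ s ≤ s' ∧ s' ≤ 1 ∧ x = pt z s' := by
  obtain ⟨y, hy, μ, h0, h1, rfl⟩ := (mem_HH le_rfl zero_le_one).1 hx
  obtain ⟨z, hz, h2, h3, h4⟩ := mem_form hA hy
  refine ⟨z, hz, y.2, y.2 + μ * (1 - y.2), by rw [← h4]; exact hy, by nlinarith, by nlinarith, ?_⟩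
  conv_lhs => rw [h4]
  exact hh_pt _ _ _

theorem HH_sub {A : NonemptyCompacts (ℝ × ℝ)} {θ : ℝ} (h0 : 0 ≤ θ) (h1 : θ ≤ 1) :
    (HH θ A : Set (ℝ × ℝ)) ⊆ HH 0 A := by
  intro x hx
  obtain ⟨y, hy, μ, h2, h3, rfl⟩ := (mem_HH h0 h1).1 hx
  exact (mem_HH le_rfl zero_le_one).2 ⟨y, hy, μ, h0.trans h2, h3, rfl⟩

theorem dist_pt1 {z z' s : ℝ} (h0 : 0 ≤ s) (h1 : s ≤ 1) : dist (pt z s) (pt z' s) ≤ |z - z'| := by
  rw [Prod.dist_eq]
  apply max_le
  · show dist ((1 - s) * z) ((1 - s) * z') ≤ _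
    rw [Real.dist_eq, ← mul_sub, abs_mul, abs_of_nonneg (by linarith)]
    have := abs_nonneg (z - z')
    nlinarith
  · show dist s s ≤ _
    rw [dist_self]; exact abs_nonneg _

theorem dist_pt2 {K z s s' : ℝ} (hK : |z| ≤ K) : dist (pt z s) (pt z s') ≤ (K + 1) * |s - s'| := by
  have h := abs_nonneg (s - s')
  have hz := abs_nonneg z
  rw [Prod.dist_eq]
  apply max_le
  · show dist ((1 - s) * z) ((1 - s') * z) ≤ _
    rw [Real.dist_eq, ← sub_mul, abs_mul, show (1 - s - (1 - s')) = -(s - s') by ring, abs_neg]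
    nlinarith
  · show dist s s' ≤ _
    rw [Real.dist_eq]
    nlinarith

theorem legs {A : NonemptyCompacts (ℝ × ℝ)} (h : (A : Set (ℝ × ℝ)) ⊆ W) {z s : ℝ}
    (hz : pt z s ∈ (A : Set (ℝ × ℝ))) : zlo A ≤ z ∧ z ≤ zhi A := by
  have hs : s < 1 := h hz
  obtain ⟨_, _, _, h1⟩ := zlo_spec h
  obtain ⟨_, _, _, h2⟩ := zhi_spec h
  have e1 := h1 _ hz
  have e2 := h2 _ hz
  rw [zeta_pt hs] at e1 e2
  exact ⟨e1, e2⟩

theorem zlo_mem {A : NonemptyCompacts (ℝ × ℝ)} (hA : (A : Set (ℝ × ℝ)) ⊆ M0 Zs)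
    (h : (A : Set (ℝ × ℝ)) ⊆ W) : zlo A ∈ Zs := by
  obtain ⟨x, hx, h1, -⟩ := zlo_spec h
  obtain ⟨z, hz, _, _, h2⟩ := mem_form hA hx
  have hs : x.2 < 1 := h hx
  rw [h2, zeta_pt hs] at h1
  rw [← h1]; exact hz

theorem dist_RR {K : ℝ} (hK0 : 0 ≤ K) (hK : ∀ z ∈ Zs, |z| ≤ K) {A : NonemptyCompacts (ℝ × ℝ)}
    (hA : (A : Set (ℝ × ℝ)) ⊆ M0 Zs) : dist (RR A) (HH 0 A) ≤ (K + 4) * (1 - bb A) := by
  have hb1 := bb_le_one hA
  by_cases hb : bb A < 1
  swap
  · have : RR A = HH 0 A := by simp only [RR, if_neg hb]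
    rw [this, dist_self]
    apply mul_nonneg <;> linarith
  have hW := (bb_lt_iff A).1 hb
  have ha0 := aa_nonneg hA
  have hab := aa_le_bb A
  have hD := zlo_le_zhi hW
  have hzlo := zlo_mem hA hW
  have hε : 0 < 1 - bb A := by linarith
  -- a lowest point
  obtain ⟨x0, hx0, hx0a, hlow⟩ := aa_spec A
  obtain ⟨z0, hz0, _, _, hx0e⟩ := mem_form hA hx0
  have hp0 : pt z0 (aa A) ∈ (A : Set (ℝ × ℝ)) := by rw [← hx0a, ← hx0e]; exact hx0
  have hl0 := legs hW hp0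
  have hz0d : |zlo A - z0| ≤ zhi A - zlo A := by
    rw [abs_le]; constructor <;> linarith [hl0.1, hl0.2]
  -- points of the leg `zlo A` are close to points of `HH 0 A`
  have hnear : ∀ s, aa A ≤ s → s ≤ 1 → ∃ y ∈ (HH 0 A : Set (ℝ × ℝ)),
      dist (pt (zlo A) s) y ≤ zhi A - zlo A := by
    intro s h1 h2
    exact ⟨pt z0 s, mem_HH0 hp0 h1 h2, (dist_pt1 (by linarith) h2).trans hz0d⟩
  have hHform : ∀ x ∈ (HH 0 A : Set (ℝ × ℝ)), ∃ z s', aa A ≤ s' ∧ s' ≤ 1 ∧ x = pt z s' ∧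
      |z - zlo A| ≤ zhi A - zlo A := by
    intro x hx
    obtain ⟨z, hz, s, s', h1, h2, h3, h4⟩ := HH0_form hA hx
    have h5 : aa A ≤ s := hlow _ h1
    have h6 := legs hW h1
    exact ⟨z, s', by linarith, h3, h4, by rw [abs_le]; constructor <;> linarith [h6.1, h6.2]⟩
  rw [NonemptyCompacts.dist_eq]
  by_cases hq : zhi A - zlo A ≤ 1 - bb A
  · have hR : RR A = R1 A := by simp only [RR, if_pos hb, if_pos hq]
    rw [hR]
    apply hausdorffDist_le_of_mem_dist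
    · apply mul_nonneg <;> linarith
    · intro x hx
      obtain ⟨s, h1, h2, rfl⟩ := (mem_seg (by linarith)).1 hx
      obtain ⟨y, hy, hy2⟩ := hnear s h1 (by linarith)
      refine ⟨y, hy, hy2.trans ?_⟩
      nlinarith
    · intro x hx
      obtain ⟨z, s', h1, h2, rfl, h3⟩ := hHform x hx
      refine ⟨pt (zlo A) (min s' (bb A + (zhi A - zlo A))),
        (mem_seg (by linarith)).2 ⟨_, le_min h1 (by linarith), min_le_right _ _, rfl⟩, ?_⟩
      have e1 : dist (pt z s') (pt (zlo A) s') ≤ zhi A - zlo A :=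
        (dist_pt1 (by linarith) h2).trans h3
      have e2 := dist_pt2 (s := s') (s' := min s' (bb A + (zhi A - zlo A))) (hK _ hzlo)
      have e3 : |s' - min s' (bb A + (zhi A - zlo A))| ≤ 1 - bb A := by
        rw [abs_le]
        constructor
        · have := min_le_left s' (bb A + (zhi A - zlo A))
          linarith
        · have : s' - (1 - bb A) ≤ min s' (bb A + (zhi A - zlo A)) := by
            apply le_min <;> linarith
          linarith
      have e4 := dist_triangle (pt z s') (pt (zlo A) s') (pt (zlo A) (min s' (bb A + (zhi A - zlo A))))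
      nlinarith
  · have hR : RR A = R2 A := by simp only [RR, if_pos hb, if_neg hq]
    rw [hR]
    have hcl : ∀ c : ℝ, aa A ≤ aa A + cl c * (1 - aa A) := fun c => by
      have := cl_nonneg c
      nlinarith
    have hcl1 : ∀ c : ℝ, aa A + cl c * (1 - aa A) ≤ 1 := fun c => by
      have := cl_le_one c
      nlinarith
    by_cases hq3 : 3 ≤ qq A
    · have h1 : (R2 A : Set (ℝ × ℝ)) = HH 0 A := by
        unfold R2
        rw [cl_of_le (show 2 - qq A ≤ 0 by linarith), cl_of_ge (show 1 ≤ qq A - 2 by linarith),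
          NonemptyCompacts.coe_sup]
        apply union_eq_right.2
        intro x hx
        obtain ⟨s, h1, h2, rfl⟩ := (mem_seg (by linarith)).1 hx
        have : s = 1 := by linarith
        rw [this, pt_one, ← pt_one z0]
        exact mem_HH0 hp0 (by linarith) le_rfl
      rw [h1, hausdorffDist_self_zero]
      apply mul_nonneg <;> linarith
    · have hq3' : zhi A - zlo A ≤ 3 * (1 - bb A) := by
        have : qq A ≤ 3 := by linarith
        unfold qq at this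
        rwa [div_le_iff₀ hε] at this
      apply hausdorffDist_le_of_mem_dist
      · apply mul_nonneg <;> linarith
      · intro x hx
        unfold R2 at hx
        rw [NonemptyCompacts.coe_sup] at hx
        rcases hx with hx | hx
        · obtain ⟨s, h1, h2, rfl⟩ := (mem_seg (hcl1 _)).1 hx
          obtain ⟨y, hy, hy2⟩ := hnear s ((hcl _).trans h1) h2
          refine ⟨y, hy, hy2.trans ?_⟩
          nlinarith
        · refine ⟨x, HH_sub (cl_nonneg _) (cl_le_one _) hx, ?_⟩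
          rw [dist_self]
          apply mul_nonneg <;> linarith
      · intro x hx
        unfold R2
        rw [NonemptyCompacts.coe_sup]
        rcases le_total (qq A) 2 with h2 | h2
        · obtain ⟨z, s', h3, h4, rfl, h5⟩ := hHform x hx
          refine ⟨pt (zlo A) s', Or.inl ((mem_seg (hcl1 _)).2 ⟨s', ?_, h4, rfl⟩), ?_⟩
          · rw [cl_of_le (by linarith)]; linarith
          · have := dist_pt1 (z := z) (z' := zlo A) (show 0 ≤ s' by linarith) h4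
            nlinarith
        · refine ⟨x, Or.inr ?_, ?_⟩
          · rw [cl_of_le (by linarith)]; exact hx
          · rw [dist_self]
            apply mul_nonneg <;> linarith

theorem cont_RR {K : ℝ} (hK0 : 0 ≤ K) (hK : ∀ z ∈ Zs, |z| ≤ K) :
    ContinuousOn RR {A : NonemptyCompacts (ℝ × ℝ) | (A : Set (ℝ × ℝ)) ⊆ M0 Zs} := by
  intro A hA
  by_cases hb : bb A < 1
  · exact (cont_RR_of_lt ((bb_lt_iff A).1 hb)).continuousWithinAt
  · have hb1 : bb A = 1 := le_antisymm (bb_le_one hA) (not_lt.1 hb)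
    have hR : RR A = HH 0 A := by simp only [RR, if_neg hb]
    have hcH : Continuous (fun B : NonemptyCompacts (ℝ × ℝ) => HH 0 B) :=
      cont_HH.comp (continuous_const.prodMk continuous_id)
    unfold ContinuousWithinAt
    rw [tendsto_iff_dist_tendsto_zero]
    have h1 : Tendsto (fun B => (K + 4) * (1 - bb B) + dist (HH 0 B) (HH 0 A))
        (𝓝[{A : NonemptyCompacts (ℝ × ℝ) | (A : Set (ℝ × ℝ)) ⊆ M0 Zs}] A) (𝓝 0) := by
      have h2 : Tendsto (fun B => (K + 4) * (1 - bb B) + dist (HH 0 B) (HH 0 A)) (𝓝 A)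
          (𝓝 ((K + 4) * (1 - bb A) + dist (HH 0 A) (HH 0 A))) :=
        ((continuous_const.mul (continuous_const.sub cont_bb)).add
          (hcH.dist continuous_const)).tendsto A
      rw [hb1, dist_self] at h2
      simp only [sub_self, mul_zero, add_zero] at h2
      exact h2.mono_left nhdsWithin_le_nhds
    refine squeeze_zero' (Eventually.of_forall fun _ => dist_nonneg) ?_ h1
    filter_upwards [self_mem_nhdsWithin] with B hB
    rw [hR]
    exact (dist_triangle _ (HH 0 B) _).trans (add_le_add (dist_RR hK0 hK hB) le_rfl)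

/-! ### The values -/

theorem pt_mem {z s : ℝ} (hz : z ∈ Zs) (h0 : 0 ≤ s) (h1 : s ≤ 1) : pt z s ∈ M0 Zs :=
  mem_M0.2 ⟨z, hz, s, h0, h1, rfl⟩

theorem HH0_sub {A : NonemptyCompacts (ℝ × ℝ)} (hA : (A : Set (ℝ × ℝ)) ⊆ M0 Zs) :
    (HH 0 A : Set (ℝ × ℝ)) ⊆ M0 Zs := by
  intro x hx
  obtain ⟨z, hz, s, s', h1, h2, h3, rfl⟩ := HH0_form hA hx
  obtain ⟨_, _, h4, _, _⟩ := mem_form hA h1
  have h4' : 0 ≤ s := h4
  exact pt_mem hz (by linarith) h3

theorem RR_sub {A : NonemptyCompacts (ℝ × ℝ)} (hA : (A : Set (ℝ × ℝ)) ⊆ M0 Zs) :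
    (RR A : Set (ℝ × ℝ)) ⊆ M0 Zs := by
  by_cases hb : bb A < 1
  swap
  · have : RR A = HH 0 A := by simp only [RR, if_neg hb]
    rw [this]; exact HH0_sub hA
  have hW := (bb_lt_iff A).1 hb
  have ha0 := aa_nonneg hA
  have hab := aa_le_bb A
  have hD := zlo_le_zhi hW
  have hzlo := zlo_mem hA hW
  by_cases hq : zhi A - zlo A ≤ 1 - bb A
  · have hR : RR A = R1 A := by simp only [RR, if_pos hb, if_pos hq]
    rw [hR]
    intro x hx
    obtain ⟨s, h1, h2, rfl⟩ := (mem_seg (by linarith)).1 hx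
    exact pt_mem hzlo (by linarith) (by linarith)
  · have hR : RR A = R2 A := by simp only [RR, if_pos hb, if_neg hq]
    rw [hR]
    intro x hx
    unfold R2 at hx
    rw [NonemptyCompacts.coe_sup] at hx
    have c0 := cl_nonneg (qq A - 2)
    have c1 := cl_le_one (qq A - 2)
    rcases hx with hx | hx
    · obtain ⟨s, h1, h2, rfl⟩ := (mem_seg (by nlinarith)).1 hx
      exact pt_mem hzlo (by nlinarith) h2
    · exact HH0_sub hA (HH_sub (cl_nonneg _) (cl_le_one _) hx)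

theorem seg_conn (z s t : ℝ) : IsConnected (seg z s t : Set (ℝ × ℝ)) := by
  unfold seg
  rw [NonemptyCompacts.coe_map]
  have : IsConnected (I01 : Set ℝ) := isConnected_Icc zero_le_one
  exact this.image _ (by unfold pt; fun_prop)

theorem HH_conn {θ : ℝ} (h0 : 0 ≤ θ) (h1 : θ ≤ 1) (A : NonemptyCompacts (ℝ × ℝ)) :
    IsConnected (HH θ A : Set (ℝ × ℝ)) ∧ (0, 1) ∈ (HH θ A : Set (ℝ × ℝ)) := by
  have htop : ((0 : ℝ), (1 : ℝ)) ∈ (HH θ A : Set (ℝ × ℝ)) := by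
    obtain ⟨y, hy⟩ := A.nonempty
    exact (mem_HH h0 h1).2 ⟨y, hy, 1, h1, le_rfl, (hh_one y).symm⟩
  refine ⟨⟨⟨_, htop⟩, isPreconnected_of_forall (0, 1) ?_⟩, htop⟩
  intro x hx
  obtain ⟨y, hy, μ, h2, h3, rfl⟩ := (mem_HH h0 h1).1 hx
  refine ⟨(fun ν => hh y ν) '' Icc μ 1, ?_, ⟨1, ⟨h3, le_rfl⟩, hh_one y⟩, ⟨μ, ⟨le_rfl, h3⟩, rfl⟩,
    isPreconnected_Icc.image _ (by unfold hh; fun_prop)⟩
  rintro _ ⟨ν, ⟨h4, h5⟩, rfl⟩
  exact (mem_HH h0 h1).2 ⟨y, hy, ν, h2.trans h4, h5, rfl⟩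

theorem RR_conn (A : NonemptyCompacts (ℝ × ℝ)) (hA : (A : Set (ℝ × ℝ)) ⊆ M0 Zs) :
    IsConnected (RR A : Set (ℝ × ℝ)) := by
  by_cases hb : bb A < 1
  swap
  · have : RR A = HH 0 A := by simp only [RR, if_neg hb]
    rw [this]; exact (HH_conn le_rfl zero_le_one A).1
  by_cases hq : zhi A - zlo A ≤ 1 - bb A
  · have hR : RR A = R1 A := by simp only [RR, if_pos hb, if_pos hq]
    rw [hR]; exact seg_conn _ _ _
  · have hR : RR A = R2 A := by simp only [RR, if_pos hb, if_neg hq]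
    rw [hR]
    unfold R2
    rw [NonemptyCompacts.coe_sup]
    obtain ⟨h1, h2⟩ := HH_conn (cl_nonneg (2 - qq A)) (cl_le_one _) A
    refine IsConnected.union ⟨(0, 1), ?_, h2⟩ (seg_conn _ _ _) h1
    have c0 := cl_nonneg (qq A - 2)
    have c1 := cl_le_one (qq A - 2)
    have ha1 := aa_le_bb A
    exact (mem_seg (by nlinarith)).2 ⟨1, by nlinarith, le_rfl, (pt_one _).symm⟩

/-! ### Identity on the subcontinua -/

theorem upper (hgap : ∀ z1 z2 : ℝ, z1 < z2 → ∃ c, z1 < c ∧ c < z2 ∧ c ∉ Zs)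
    {A : NonemptyCompacts (ℝ × ℝ)} (hA : (A : Set (ℝ × ℝ)) ⊆ M0 Zs)
    (hc : IsConnected (A : Set (ℝ × ℝ))) (htop : ((0 : ℝ), (1 : ℝ)) ∈ (A : Set (ℝ × ℝ)))
    {z s s' : ℝ} (hx : pt z s ∈ (A : Set (ℝ × ℝ))) (h1 : s ≤ s') (h2 : s' ≤ 1) :
    pt z s' ∈ (A : Set (ℝ × ℝ)) := by
  by_contra hn
  have hss : s < s' := by
    rcases eq_or_lt_of_le h1 with h | h
    · rw [h] at hx; exact absurd hx hn
    · exact h
  have hs1 : s' < 1 := by
    rcases eq_or_lt_of_le h2 with h | h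
    · rw [h, pt_one] at hn; exact absurd htop hn
    · exact h
  have hopen : IsOpen {z' : ℝ | pt z' s' ∉ (A : Set (ℝ × ℝ))} := by
    have hcl : IsClosed (A : Set (ℝ × ℝ)) := A.isCompact.isClosed
    have hct : Continuous (fun z' : ℝ => pt z' s') := by unfold pt; fun_prop
    exact hcl.isOpen_compl.preimage hct
  obtain ⟨δ, hδ, hball⟩ := Metric.isOpen_iff.1 hopen z hn
  obtain ⟨c, hc1, hc2, hc3⟩ := hgap (z - δ) z (by linarith)
  obtain ⟨c', hc1', hc2', hc3'⟩ := hgap z (z + δ) (by linarith)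
  let U : Set (ℝ × ℝ) := {x | c * (1 - x.2) < x.1 ∧ x.1 < c' * (1 - x.2) ∧ x.2 < s'}
  let V : Set (ℝ × ℝ) := {x | s' < x.2 ∨ x.1 < c * (1 - x.2) ∨ c' * (1 - x.2) < x.1}
  have hU : IsOpen U := by
    have e : U = {x : ℝ × ℝ | c * (1 - x.2) < x.1} ∩ ({x : ℝ × ℝ | x.1 < c' * (1 - x.2)} ∩
        {x : ℝ × ℝ | x.2 < s'}) := by ext x; exact Iff.rfl
    rw [e]
    exact IsOpen.inter (isOpen_lt (by fun_prop) (by fun_prop))
      (IsOpen.inter (isOpen_lt (by fun_prop) (by fun_prop)) (isOpen_lt (by fun_prop) (by fun_prop)))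
  have hV : IsOpen V := by
    have e : V = {x : ℝ × ℝ | s' < x.2} ∪ ({x : ℝ × ℝ | x.1 < c * (1 - x.2)} ∪
        {x : ℝ × ℝ | c' * (1 - x.2) < x.1}) := by ext x; exact Iff.rfl
    rw [e]
    exact IsOpen.union (isOpen_lt (by fun_prop) (by fun_prop))
      (IsOpen.union (isOpen_lt (by fun_prop) (by fun_prop)) (isOpen_lt (by fun_prop) (by fun_prop)))
  have hcov : (A : Set (ℝ × ℝ)) ⊆ U ∪ V := by
    intro w hw
    obtain ⟨z', hz', h3, h4, h5⟩ := mem_form hA hw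
    by_cases h6 : s' < w.2
    · exact Or.inr (Or.inl h6)
    have hpos : 0 < 1 - w.2 := by linarith
    have hw1 : w.1 = (1 - w.2) * z' := congrArg Prod.fst h5
    rcases lt_trichotomy z' c with h7 | h7 | h7
    · right; right; left
      rw [hw1]; nlinarith
    · exact absurd (h7 ▸ hz') hc3
    rcases lt_trichotomy z' c' with h8 | h8 | h8
    · left
      refine ⟨by rw [hw1]; nlinarith, by rw [hw1]; nlinarith, ?_⟩
      rcases lt_or_eq_of_le (not_lt.1 h6) with h9 | h9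
      · exact h9
      · exfalso
        have h10 : z' ∈ Metric.ball z δ := by
          rw [Metric.mem_ball, Real.dist_eq, abs_lt]; constructor <;> linarith
        have h11 := hball h10
        rw [h9] at h5
        rw [h5] at hw
        exact h11 hw
    · exact absurd (h8 ▸ hz') hc3'
    · right; right; right
      rw [hw1]; nlinarith
  have hpos : 0 < 1 - s := by linarith
  obtain ⟨w, hw, ⟨hw1, hw2, hw3⟩, hw4⟩ := hc.isPreconnected U V hU hV hcov
    ⟨pt z s, hx, by show c * (1 - s) < (1 - s) * z; nlinarith,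
      by show (1 - s) * z < c' * (1 - s); nlinarith, hss⟩
    ⟨(0, 1), htop, Or.inl hs1⟩
  rcases hw4 with h | h | h
  · exact absurd hw3 (not_lt.2 h.le)
  · exact absurd hw1 (not_lt.2 h.le)
  · exact absurd hw2 (not_lt.2 h.le)

theorem RR_id (hgap : ∀ z1 z2 : ℝ, z1 < z2 → ∃ c, z1 < c ∧ c < z2 ∧ c ∉ Zs)
    {A : NonemptyCompacts (ℝ × ℝ)} (hA : (A : Set (ℝ × ℝ)) ⊆ M0 Zs)
    (hc : IsConnected (A : Set (ℝ × ℝ))) : RR A = A := by
  by_cases hb : bb A < 1
  · have hW := (bb_lt_iff A).1 hb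
    -- all points are on one leg
    have hleg : ∀ x ∈ (A : Set (ℝ × ℝ)), ∀ y ∈ (A : Set (ℝ × ℝ)), zeta x ≤ zeta y := by
      intro x hx y hy
      by_contra hlt
      obtain ⟨c, h1, h2, h3⟩ := hgap _ _ (not_le.1 hlt)
      have hpc : IsPreconnected (zeta '' (A : Set (ℝ × ℝ))) :=
        hc.isPreconnected.image _ (cont_zeta.mono hW)
      have h4 := hpc.Icc_subset ⟨y, hy, rfl⟩ ⟨x, hx, rfl⟩ ⟨h1.le, h2.le⟩
      obtain ⟨w, hw, h5⟩ := h4
      obtain ⟨z, hz, _, _, h6⟩ := mem_form hA hw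
      have h7 : w.2 < 1 := hW hw
      rw [h6, zeta_pt h7] at h5
      exact h3 (h5 ▸ hz)
    obtain ⟨x1, hx1, h1, h1'⟩ := zlo_spec hW
    obtain ⟨x2, hx2, h2, h2'⟩ := zhi_spec hW
    have hDD : zhi A = zlo A := by
      rw [← h1, ← h2]
      exact le_antisymm (hleg _ hx2 _ hx1) (hleg _ hx1 _ hx2)
    have hR : RR A = R1 A := by
      have : zhi A - zlo A ≤ 1 - bb A := by rw [hDD]; linarith
      simp only [RR, if_pos hb, if_pos this]
    rw [hR]
    apply NonemptyCompacts.ext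
    unfold R1
    rw [hDD, sub_self, add_zero]
    have hAform : ∀ x ∈ (A : Set (ℝ × ℝ)), x = pt (zlo A) x.2 := by
      intro x hx
      obtain ⟨z, hz, _, _, h6⟩ := mem_form hA hx
      have h7 : x.2 < 1 := hW hx
      have h8 : zeta x = z := by
        conv_lhs => rw [h6]
        exact zeta_pt h7
      have h9 : zeta x = zlo A := le_antisymm ((h2' x hx).trans hDD.le) (h1' x hx)
      rw [h8] at h9
      rw [← h9]; exact h6
    obtain ⟨xa, hxa, ha1, ha2⟩ := aa_spec A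
    obtain ⟨xb, hxb, hb1, hb2⟩ := bb_spec A
    ext x
    constructor
    · intro hx
      obtain ⟨s, h3, h4, rfl⟩ := (mem_seg (aa_le_bb A)).1 hx
      have hpc : IsPreconnected (Prod.snd '' (A : Set (ℝ × ℝ))) :=
        hc.isPreconnected.image _ continuous_snd.continuousOn
      have h5 : s ∈ Prod.snd '' (A : Set (ℝ × ℝ)) :=
        hpc.Icc_subset ⟨xa, hxa, rfl⟩ ⟨xb, hxb, rfl⟩ ⟨by rw [ha1]; exact h3, by rw [hb1]; exact h4⟩
      obtain ⟨w, hw, h6⟩ := h5
      rw [← h6, ← hAform w hw]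
      exact hw
    · intro hx
      exact (mem_seg (aa_le_bb A)).2 ⟨x.2, ha2 x hx, hb2 x hx, hAform x hx⟩
  · have hb1 : bb A = 1 := le_antisymm (bb_le_one hA) (not_lt.1 hb)
    have hR : RR A = HH 0 A := by simp only [RR, if_neg hb]
    rw [hR]
    obtain ⟨xb, hxb, h1, -⟩ := bb_spec A
    have htop : ((0 : ℝ), (1 : ℝ)) ∈ (A : Set (ℝ × ℝ)) := by
      obtain ⟨z, _, _, _, h2⟩ := mem_form hA hxb
      rw [h1, hb1, pt_one] at h2
      rw [← h2]; exact hxb
    apply NonemptyCompacts.ext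
    ext x
    constructor
    · intro hx
      obtain ⟨z, hz, s, s', h3, h4, h5, rfl⟩ := HH0_form hA hx
      exact upper hgap hA hc htop h3 h4 h5
    · intro hx
      exact (mem_HH le_rfl zero_le_one).2 ⟨x, hx, 0, le_rfl, zero_le_one, (hh_zero x).symm⟩

end Pool.Agent.R380.Fan
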